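import Pool.Agent.Y347.CO.Stm4

/-!
# Points of large sensitivity of circuits of constant depth are rare
-/

set_option autoImplicit false

namespace Pool.Agent.Y220.CO

open Finset Function H568R2 Pool.Agent.TH163.AC3 Pool.Agent.Y603.MS

variable {N : ℕ}

/-- the weight of a restriction at a point with a given set of sensitive coordinates -/
noncomputable def Wt (x : Fin N → Bool) (S : Finset (Fin N)) (i : Fin N) (o : Option Bool) : ℝ :=
  (if o = none then (if i ∈ S then (1 : ℝ) / 4 else 1 / 2) else 1) *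
    (if o = none ∨ o = some (x i) then 1 else 0)

lemma Wt_nonneg (x : Fin N → Bool) (S : Finset (Fin N)) (i : Fin N) (o : Option Bool) :
    0 ≤ Wt x S i o := by
  unfold Wt
  apply mul_nonneg
  · split_ifs <;> norm_num
  · split_ifs <;> norm_num

lemma Wt_in {x : Fin N → Bool} (S : Finset (Fin N)) {ρ : Restr (Fin N)} (hx : InC ρ x) :
    ∏ i, Wt x S i (ρ i) = (1 / 2) ^ fr ρ * (1 / 2) ^ (S.filter fun i => ρ i = none).card := by
  have h1 : ∀ i, Wt x S i (ρ i) = (if ρ i = none then (1 : ℝ) / 2 else 1) *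
      (if i ∈ S ∧ ρ i = none then (1 : ℝ) / 2 else 1) := by
    intro i
    unfold Wt
    cases hρ : ρ i with
    | none =>
      by_cases hS : i ∈ S
      · simp [hS]; norm_num
      · simp [hS]
    | some b => rw [hx i b hρ]; simp
  rw [Finset.prod_congr rfl fun i _ => h1 i, Finset.prod_mul_distrib, half_pow]
  congr 1
  rw [← Finset.prod_const, Finset.prod_filter]
  have h2 : ∀ i, (if i ∈ S ∧ ρ i = none then (1 : ℝ) / 2 else 1) =
      if i ∈ S then (if ρ i = none then (1 : ℝ) / 2 else 1) else 1 := by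
    intro i
    by_cases hS : i ∈ S <;> by_cases hr : ρ i = none <;> simp [hS, hr]
  rw [Finset.prod_congr rfl fun i _ => h2 i, Finset.prod_ite_mem, Finset.univ_inter]

lemma Wt_sum (p : ℝ) (x : Fin N → Bool) (S : Finset (Fin N)) :
    Ex (wq p) (fun ρ : Restr (Fin N) => ∏ i, Wt x S i (ρ i)) =
      (1 / 2) ^ N * (1 - p / 2) ^ S.card := by
  unfold Ex
  have h1 : ∀ ρ : Restr (Fin N), (∏ i, wq p (ρ i)) * ∏ i, Wt x S i (ρ i) =
      ∏ i, (wq p (ρ i) * Wt x S i (ρ i)) := fun ρ => (Finset.prod_mul_distrib).symm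
  rw [Finset.sum_congr rfl fun ρ _ => h1 ρ, sum_prod_restr (fun i o => wq p o * Wt x S i o)]
  have h3 : ∀ i : Fin N, ∑ o : Option Bool, wq p o * Wt x S i o =
      1 / 2 * (if i ∈ S then 1 - p / 2 else 1) := by
    intro i
    rw [Fintype.sum_option, Fintype.sum_bool]
    unfold Wt
    by_cases hS : i ∈ S
    · cases x i <;> simp [wq, hS] <;> ring
    · cases x i <;> simp [wq, hS] <;> ring
  rw [Finset.prod_congr rfl fun i _ => h3 i, Finset.prod_mul_distrib, Finset.prod_const,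
    Finset.card_univ, Fintype.card_fin, Finset.prod_ite_mem, Finset.univ_inter, Finset.prod_const]

/-- the numerical estimate -/
lemma num_tail (K a κ : ℕ) (hK : 0 < K) (hκ : 2 * K * (a + 1) ≤ κ) :
    (2 : ℝ) ^ a * (1 - 1 / (K : ℝ) / 2) ^ κ ≤ 1 / 2 := by
  have hK' : (1 : ℝ) ≤ K := by exact_mod_cast hK
  have h1 : (1 : ℝ) - 1 / K / 2 ≤ Real.exp (-(1 / K / 2)) := by
    have := Real.add_one_le_exp (-(1 / (K : ℝ) / 2))
    linarith
  have h0 : 0 ≤ (1 : ℝ) - 1 / K / 2 := by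
    have : 1 / (K : ℝ) ≤ 1 := by rw [div_le_one (by linarith)]; exact hK'
    linarith
  have hκ' : 2 * (K : ℝ) * (a + 1) ≤ κ := by exact_mod_cast hκ
  have h2 : (1 - 1 / (K : ℝ) / 2) ^ κ ≤ Real.exp (-((a : ℝ) + 1)) := by
    calc (1 - 1 / (K : ℝ) / 2) ^ κ ≤ Real.exp (-(1 / K / 2)) ^ κ := pow_le_pow_left₀ h0 h1 κ
      _ = Real.exp (κ * (-(1 / K / 2))) := by rw [← Real.exp_nat_mul]
      _ ≤ Real.exp (-((a : ℝ) + 1)) := by
          apply Real.exp_le_exp.2
          have h5 : (κ : ℝ) * (1 / K / 2) = κ / (2 * K) := by field_simp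
          have h6 : (a : ℝ) + 1 ≤ κ / (2 * K) := by
            rw [le_div_iff₀ (by positivity)]
            linarith
          linarith
  have h9 : (2 : ℝ) ≤ Real.exp 1 := by
    have := Real.add_one_le_exp (1 : ℝ)
    linarith
  have h7 : Real.exp (-((a : ℝ) + 1)) ≤ (1 / 2) ^ (a + 1) := by
    have h8 : Real.exp (-(1 : ℝ)) ≤ 1 / 2 := by
      rw [Real.exp_neg, ← one_div]
      exact one_div_le_one_div_of_le (by norm_num) h9
    calc Real.exp (-((a : ℝ) + 1)) = Real.exp (-1) ^ (a + 1) := by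
          rw [← Real.exp_nat_mul]; congr 1; push_cast; ring
      _ ≤ _ := pow_le_pow_left₀ (Real.exp_pos _).le h8 _
  calc (2 : ℝ) ^ a * (1 - 1 / (K : ℝ) / 2) ^ κ ≤ 2 ^ a * (1 / 2) ^ (a + 1) :=
        mul_le_mul_of_nonneg_left (h2.trans h7) (by positivity)
    _ = 1 / 2 := by rw [pow_succ, ← mul_assoc, ← mul_pow]; norm_num

theorem done : Pool.Agent.Y347.CO.S_TAIL := by
  classical
  intro w N C ℓ d t κ hleak hℓ hw ht hs hd hκ o B hB
  obtain ⟨g, hgv, hg⟩ := unleak C (fun _ => false)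
  have hgv' : ∀ v x, g v x = C.val v x := fun v x =>
    hgv x (fun u hu => by rw [hleak] at hu; exact absurd hu (Finset.notMem_empty _)) v
  have hwl : 0 < w * ℓ := Nat.mul_pos hw hℓ
  obtain ⟨K, hK⟩ : ∃ K : ℕ, K = (2 ^ (d + 9) * (w * ℓ)) ^ d := ⟨_, rfl⟩
  have hK0 : 0 < K := by rw [hK]; positivity
  obtain ⟨q, hq⟩ : ∃ q : ℝ, q = 1 / (2 ^ (d + 9) * ((w * ℓ : ℕ) : ℝ)) := ⟨_, rfl⟩
  obtain ⟨q0, q1, q2, q3⟩ := level_num d t (w * ℓ) q hwl hq
  have hqd : q ^ d = 1 / (K : ℝ) := by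
    rw [hq, hK, one_div, one_div, inv_pow]
    push_cast
    rfl
  have hlev := levels C g hg hℓ hw hs q0 q1 q2 (t := t) ht d
  have hQ : Ex (wq (q ^ d)) (fun ρ : Restr (Fin N) => if ¬ Dt (fun ρ' => ∀ v,
      HasDT ℓ (rs (g v) ρ')) (d * t) ρ then (1 : ℝ) else 0) ≤ (1 / 2) ^ (2 * t + d + 1) := by
    have h1 : (fun ρ' : Restr (Fin N) => ∀ v, C.depth v ≤ d → HasDT ℓ (rs (g v) ρ')) =
        fun ρ' => ∀ v, HasDT ℓ (rs (g v) ρ') := by
      funext ρ'
      exact propext (forall_congr' fun v => ⟨fun h => h (hd v), fun h _ => h⟩)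
    rw [h1] at hlev
    exact hlev.trans q3
  obtain ⟨p, hp⟩ : ∃ p : ℝ, p = q ^ d := ⟨_, rfl⟩
  have hp0 : 0 ≤ p := hp ▸ pow_nonneg q0 d
  have hp1 : p ≤ 1 := hp ▸ pow_le_one₀ q0 (by linarith)
  rw [← hp] at hQ hqd
  let S : (Fin N → Bool) → Finset (Fin N) := fun x =>
    univ.filter fun i => C.val o (update x i (!(x i))) ≠ C.val o x
  -- pointwise estimate
  have hpt : ∀ ρ : Restr (Fin N), ((B.filter (InC ρ)).card : ℝ) * (1 / 2) ^ fr ρ ≤
      (if ¬ Dt (fun ρ' => ∀ v, HasDT ℓ (rs (g v) ρ')) (d * t) ρ then (1 : ℝ) else 0) +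
        ∑ x ∈ B, 2 ^ (d * t + ℓ) * ∏ i, Wt x (S x) i (ρ i) := by
    intro ρ
    have hnn : ∀ x, (0 : ℝ) ≤ 2 ^ (d * t + ℓ) * ∏ i, Wt x (S x) i (ρ i) := fun x =>
      mul_nonneg (by positivity) (Finset.prod_nonneg fun i _ => Wt_nonneg _ _ _ _)
    by_cases hgood : Dt (fun ρ' => ∀ v, HasDT ℓ (rs (g v) ρ')) (d * t) ρ
    · rw [if_neg (not_not.2 hgood), zero_add, Finset.card_filter, Nat.cast_sum, Finset.sum_mul]
      refine Finset.sum_le_sum fun x hx => ?_
      by_cases hC : InC ρ x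
      · rw [if_pos hC, Nat.cast_one, one_mul, Wt_in (S x) hC]
        obtain ⟨A, R, hA, hR, hl⟩ := reads_point hgood x hC
        have hsub : ((S x).filter fun i => ρ i = none) ⊆ A ∪ R o := by
          intro i hi
          obtain ⟨hi1, hi2⟩ := Finset.mem_filter.1 hi
          have hi3 := (Finset.mem_filter.1 hi1).2
          by_contra hcon
          rw [Finset.mem_union, not_or] at hcon
          apply hi3
          rw [← hgv' o, ← hgv' o]
          refine hl o _ ?_ ?_ ?_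
          · intro j b hj
            have hji : j ≠ i := by
              rintro rfl
              rw [hi2] at hj
              cases hj
            rw [update_of_ne hji]
            exact hC j b hj
          · intro j hj
            have hji : j ≠ i := by
              rintro rfl
              exact hcon.1 hj
            rw [update_of_ne hji]
          · intro j hj
            have hji : j ≠ i := by
              rintro rfl
              exact hcon.2 hj
            rw [update_of_ne hji]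
        have hcard : ((S x).filter fun i => ρ i = none).card ≤ d * t + ℓ :=
          (Finset.card_le_card hsub).trans ((Finset.card_union_le _ _).trans
            (Nat.add_le_add hA (hR o)))
        have h3 : (1 : ℝ) ≤ 2 ^ (d * t + ℓ) *
            (1 / 2) ^ ((S x).filter fun i => ρ i = none).card := by
          calc (1 : ℝ) = 2 ^ (d * t + ℓ) * (1 / 2) ^ (d * t + ℓ) := by
                rw [← mul_pow]; norm_num
            _ ≤ _ := mul_le_mul_of_nonneg_left
              (pow_le_pow_of_le_one (by norm_num) (by norm_num) hcard) (by positivity)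
        have h4 : (0 : ℝ) ≤ (1 / 2) ^ fr ρ := by positivity
        nlinarith
      · rw [if_neg hC, Nat.cast_zero, zero_mul]
        exact hnn x
    · rw [if_pos hgood]
      have h2 : (B.filter (InC ρ)).card ≤ 2 ^ fr ρ := by
        rw [← card_inC]
        exact Finset.card_le_card (Finset.filter_subset_filter _ (Finset.subset_univ _))
      have h3 : ((B.filter (InC ρ)).card : ℝ) ≤ 2 ^ fr ρ := by exact_mod_cast h2
      have h5 : ((B.filter (InC ρ)).card : ℝ) * (1 / 2) ^ fr ρ ≤ 1 := by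
        calc _ ≤ (2 : ℝ) ^ fr ρ * (1 / 2) ^ fr ρ := mul_le_mul_of_nonneg_right h3 (by positivity)
          _ = 1 := by rw [← mul_pow]; norm_num
      have h6 : (0 : ℝ) ≤ ∑ x ∈ B, 2 ^ (d * t + ℓ) * ∏ i, Wt x (S x) i (ρ i) :=
        Finset.sum_nonneg fun x _ => hnn x
      linarith
  have hsum := dens_avg (p := p) B
  have h2 : Ex (wq p) (fun ρ : Restr (Fin N) => ((B.filter (InC ρ)).card : ℝ) * (1 / 2) ^ fr ρ) ≤
      Ex (wq p) (fun ρ : Restr (Fin N) =>
        (if ¬ Dt (fun ρ' => ∀ v, HasDT ℓ (rs (g v) ρ')) (d * t) ρ then (1 : ℝ) else 0) +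
        ∑ x ∈ B, 2 ^ (d * t + ℓ) * ∏ i, Wt x (S x) i (ρ i)) :=
    Ex_mono (wq_nonneg hp0 hp1) hpt
  have h3 : Ex (wq p) (fun ρ : Restr (Fin N) => ((B.filter (InC ρ)).card : ℝ) * (1 / 2) ^ fr ρ) =
      B.card * (1 / 2 : ℝ) ^ N := hsum
  rw [h3, Ex_add] at h2
  have h4 : Ex (wq p) (fun ρ : Restr (Fin N) =>
      ∑ x ∈ B, 2 ^ (d * t + ℓ) * ∏ i, Wt x (S x) i (ρ i)) ≤ B.card * ((1 / 2) ^ N * (1 / 2)) := by
    have e : Ex (wq p) (fun ρ : Restr (Fin N) =>
        ∑ x ∈ B, 2 ^ (d * t + ℓ) * ∏ i, Wt x (S x) i (ρ i)) =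
        ∑ x ∈ B, 2 ^ (d * t + ℓ) * ((1 / 2) ^ N * (1 - p / 2) ^ (S x).card) := by
      have e1 : ∀ x, (2 : ℝ) ^ (d * t + ℓ) * ((1 / 2) ^ N * (1 - p / 2) ^ (S x).card) =
          Ex (wq p) (fun ρ : Restr (Fin N) => 2 ^ (d * t + ℓ) * ∏ i, Wt x (S x) i (ρ i)) := by
        intro x
        rw [Ex_smul, Wt_sum]
      rw [Finset.sum_congr rfl fun x _ => e1 x]
      unfold Ex
      rw [Finset.sum_comm]
      refine Finset.sum_congr rfl fun ρ _ => ?_
      rw [Finset.mul_sum]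
    rw [e, ← nsmul_eq_mul]
    refine Finset.sum_le_card_nsmul _ _ _ fun x hx => ?_
    have hκx : 2 * K * (d * t + ℓ + 1) ≤ (S x).card := by
      rw [hK]
      exact hκ.trans (hB x hx)
    have h5 := num_tail K (d * t + ℓ) (S x).card hK0 hκx
    rw [← hqd] at h5
    have h6 : (0 : ℝ) ≤ (1 / 2) ^ N := by positivity
    nlinarith
  have h5 : (B.card : ℝ) * (1 / 2) ^ N ≤ (1 / 2) ^ (2 * t) := by
    have h6 : (B.card : ℝ) * (1 / 2) ^ N * (1 / 2) ≤ (1 / 2) ^ (2 * t + d + 1) := by linarith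
    have h7 : ((1 : ℝ) / 2) ^ (2 * t + d + 1) ≤ (1 / 2) ^ (2 * t) * (1 / 2) := by
      rw [← pow_succ]
      exact pow_le_pow_of_le_one (by norm_num) (by norm_num) (by omega)
    linarith
  have h6 : (B.card : ℝ) * 4 ^ t ≤ 2 ^ N := by
    have e1 : (2 : ℝ) ^ N * (1 / 2) ^ N = 1 := by rw [← mul_pow]; norm_num
    have e2 : (4 : ℝ) ^ t * (1 / 2) ^ (2 * t) = 1 := by
      rw [pow_mul, ← mul_pow]; norm_num
    calc (B.card : ℝ) * 4 ^ t = (B.card : ℝ) * 4 ^ t * ((2 : ℝ) ^ N * (1 / 2) ^ N) := by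
          rw [e1, mul_one]
      _ = (B.card * (1 / 2) ^ N) * (4 ^ t * 2 ^ N) := by ring
      _ ≤ (1 / 2) ^ (2 * t) * (4 ^ t * 2 ^ N) := mul_le_mul_of_nonneg_right h5 (by positivity)
      _ = (4 ^ t * (1 / 2) ^ (2 * t)) * 2 ^ N := by ring
      _ = 2 ^ N := by rw [e2, one_mul]
  exact_mod_cast h6

end Pool.Agent.Y220.CO
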